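import Mathlib

/-!
# A polygonal digraph of order nine with Laplacian spread one
-/

set_option autoImplicit false

open Finset Matrix

namespace Pool.Agent.Results.MP_8a2148_co.OrderNine

section defs

variable {n : ℕ}

open Classical in
/-- The out-degree of a vertex. -/
noncomputable def outDeg (G : Digraph (Fin n)) (i : Fin n) : ℕ :=
  (univ.filter fun j => G.Adj i j).card

open Classical in
/-- The in-degree of a vertex. -/
noncomputable def inDeg (G : Digraph (Fin n)) (i : Fin n) : ℕ :=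
  (univ.filter fun j => G.Adj j i).card

open Classical in
/-- The Laplacian `D - A`, where `D` is the diagonal matrix of the out-degrees. -/
noncomputable def lap (G : Digraph (Fin n)) : Matrix (Fin n) (Fin n) ℂ :=
  Matrix.diagonal (fun i => (outDeg G i : ℂ)) - Matrix.of fun i j => if G.Adj i j then 1 else 0

/-- The restricted numerical range `W_r(G)`: all `x* L x` for complex unit vectors `x` orthogonal
to the all-ones vector. -/
def numRange (G : Digraph (Fin n)) : Set ℂ :=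
  {z | ∃ x : Fin n → ℂ, ∑ i, x i = 0 ∧ ∑ i, ‖x i‖ ^ 2 = 1 ∧ z = star x ⬝ᵥ (lap G *ᵥ x)}

/-- The values `xᵀ L x` for real unit vectors `x` orthogonal to the all-ones vector. -/
def values (G : Digraph (Fin n)) : Set ℝ :=
  {t | ∃ x : Fin n → ℝ, ∑ i, x i = 0 ∧ ∑ i, x i ^ 2 = 1 ∧
    (t : ℂ) = (fun i => (x i : ℂ)) ⬝ᵥ (lap G *ᵥ fun i => (x i : ℂ))}

/-- `α(G)`. -/
noncomputable def alpha (G : Digraph (Fin n)) : ℝ := sInf (values G)

/-- `β(G)`. -/
noncomputable def beta (G : Digraph (Fin n)) : ℝ := sSup (values G)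

/-- The Laplacian spread. -/
noncomputable def sp (G : Digraph (Fin n)) : ℝ := beta G - alpha G

/-- `Q` is a restrictor matrix: its `n - 1` columns are orthonormal and orthogonal to the
all-ones vector. -/
def IsRestrictor (Q : Matrix (Fin n) (Fin (n - 1)) ℂ) : Prop :=
  Qᴴ * Q = 1 ∧ ∀ k, ∑ i, Q i k = 0

/-- The set of eigenvalues of a square complex matrix. -/
def eigenvalues {m : ℕ} (M : Matrix (Fin m) (Fin m) ℂ) : Set ℂ :=
  {μ | ∃ y : Fin m → ℂ, y ≠ 0 ∧ M *ᵥ y = μ • y}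

/-- `G` is polygonal: restrictor matrices exist, and for each of them `W_r(G)` is the convex hull
of the eigenvalues of `Q* L Q`. -/
def IsPolygonal (G : Digraph (Fin n)) : Prop :=
  (∃ Q : Matrix (Fin n) (Fin (n - 1)) ℂ, IsRestrictor Q) ∧
    ∀ Q : Matrix (Fin n) (Fin (n - 1)) ℂ, IsRestrictor Q →
      numRange G = convexHull ℝ (eigenvalues (Qᴴ * lap G * Q))

end defs

section general

variable {n : ℕ}

lemma sum_normSq_eq {m : ℕ} (y : Fin m → ℂ) :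
    ((∑ i, ‖y i‖ ^ 2 : ℝ) : ℂ) = star y ⬝ᵥ y := by
  simp only [dotProduct, Pi.star_apply, RCLike.star_def]
  push_cast
  exact sum_congr rfl fun i _ => (Complex.conj_mul' (y i)).symm

lemma eigenvalues_subset (G : Digraph (Fin n)) (Q : Matrix (Fin n) (Fin (n - 1)) ℂ)
    (hQ : IsRestrictor Q) : eigenvalues (Qᴴ * lap G * Q) ⊆ numRange G := by
  rintro μ ⟨y, hy, hμ⟩
  set c : ℝ := ∑ i, ‖y i‖ ^ 2 with hc
  have hcpos : 0 < c := by
    by_contra hcon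
    apply hy
    have h0 : c = 0 := le_antisymm (not_lt.1 hcon) (sum_nonneg fun i _ => by positivity)
    funext i
    have := (sum_eq_zero_iff_of_nonneg (fun i _ => by positivity)).1 h0 i (mem_univ i)
    simpa using this
  set d : ℂ := (((Real.sqrt c)⁻¹ : ℝ) : ℂ) with hd
  have hdd : d * d * (c : ℂ) = 1 := by
    rw [hd]
    norm_cast
    rw [← mul_inv, Real.mul_self_sqrt hcpos.le, inv_mul_cancel₀ hcpos.ne']
  have hstar : star d = d := by rw [hd]; simp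
  have hQQ : star (Q *ᵥ y) ⬝ᵥ (Q *ᵥ y) = star y ⬝ᵥ y := by
    rw [star_mulVec, dotProduct_mulVec, vecMul_vecMul, hQ.1, vecMul_one]
  refine ⟨d • (Q *ᵥ y), ?_, ?_, ?_⟩
  · have h1 : ∑ i, (Q *ᵥ y) i = 0 := by
      simp only [mulVec, dotProduct]
      rw [sum_comm]
      refine sum_eq_zero fun k _ => ?_
      rw [← sum_mul, hQ.2 k, zero_mul]
    simp only [Pi.smul_apply, smul_eq_mul]
    rw [← mul_sum, h1, mul_zero]
  · have h2 : ((∑ i, ‖(d • (Q *ᵥ y)) i‖ ^ 2 : ℝ) : ℂ) = 1 := by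
      rw [sum_normSq_eq, star_smul, smul_dotProduct, dotProduct_smul, hQQ, ← sum_normSq_eq, hstar,
        smul_eq_mul, smul_eq_mul, ← mul_assoc]
      exact hdd
    exact_mod_cast h2
  · have h3 : star (Q *ᵥ y) ⬝ᵥ (lap G *ᵥ (Q *ᵥ y)) = μ * c := by
      rw [star_mulVec, ← dotProduct_mulVec, mulVec_mulVec, mulVec_mulVec, hμ,
        dotProduct_smul, ← sum_normSq_eq, smul_eq_mul]
    rw [star_smul, mulVec_smul, smul_dotProduct, dotProduct_smul, h3, hstar, smul_eq_mul,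
      smul_eq_mul]
    linear_combination (-μ) * hdd

lemma restrictor_complete (Q : Matrix (Fin 9) (Fin (9 - 1)) ℂ) (hQ : IsRestrictor Q)
    (x : Fin 9 → ℂ) (hx : ∑ i, x i = 0) : Q *ᵥ (Qᴴ *ᵥ x) = x := by
  let E : Matrix (Fin 9) Unit ℂ := Matrix.of fun _ _ => (1 / 3 : ℂ)
  have hEQ : Eᴴ * Q = 0 := by
    ext i k
    simp only [mul_apply, conjTranspose_apply, E, of_apply, Matrix.zero_apply]
    rw [← mul_sum, hQ.2 k, mul_zero]
  have hQE : Qᴴ * E = 0 := by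
    have := congrArg conjTranspose hEQ
    rwa [conjTranspose_mul, conjTranspose_conjTranspose, conjTranspose_zero] at this
  have hEE : Eᴴ * E = 1 := by
    ext i k
    simp [mul_apply, E]
    norm_num
  have h1 : fromRows Qᴴ Eᴴ * fromCols Q E = 1 := by
    rw [fromRows_mul_fromCols, hQ.1, hQE, hEQ, hEE, fromBlocks_one]
  have e : Fin 9 ≃ Fin (9 - 1) ⊕ Unit := Fintype.equivOfCardEq (by simp)
  have h2 := (fromCols_mul_fromRows_eq_one_comm e Q E Qᴴ Eᴴ).2 h1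
  rw [fromCols_mul_fromRows] at h2
  have h3 : Eᴴ *ᵥ x = 0 := by
    funext i
    simp only [mulVec, dotProduct, conjTranspose_apply, E, of_apply, Pi.zero_apply]
    rw [← mul_sum, hx, mul_zero]
  calc Q *ᵥ (Qᴴ *ᵥ x) = (Q * Qᴴ) *ᵥ x + E *ᵥ (Eᴴ *ᵥ x) := by
        rw [h3, mulVec_zero, add_zero, mulVec_mulVec]
    _ = x := by rw [mulVec_mulVec, ← add_mulVec, h2, one_mulVec]

lemma mem_eigenvalues (G : Digraph (Fin 9)) (Q : Matrix (Fin 9) (Fin (9 - 1)) ℂ)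
    (hQ : IsRestrictor Q) (x : Fin 9 → ℂ) (hx0 : x ≠ 0) (hx : ∑ i, x i = 0) (μ : ℂ)
    (h : lap G *ᵥ x = μ • x) : μ ∈ eigenvalues (Qᴴ * lap G * Q) := by
  have hc := restrictor_complete Q hQ x hx
  refine ⟨Qᴴ *ᵥ x, ?_, ?_⟩
  · intro h0
    apply hx0
    rw [← hc, h0, mulVec_zero]
  · rw [← mulVec_mulVec, hc, ← mulVec_mulVec, h, mulVec_smul]

end general

section nine

/-- The adjacency matrix. -/
def adjM : Matrix (Fin 9) (Fin 9) ℤ :=
  !![0, 1, 1, 0, 0, 0, 1, 1, 0;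
     1, 0, 0, 1, 1, 1, 0, 0, 0;
     0, 1, 0, 1, 0, 0, 1, 1, 0;
     1, 0, 1, 0, 1, 1, 0, 0, 0;
     1, 0, 1, 0, 0, 0, 1, 0, 1;
     1, 0, 1, 0, 0, 0, 0, 1, 1;
     0, 1, 0, 1, 0, 1, 0, 0, 1;
     0, 1, 0, 1, 1, 0, 0, 0, 1;
     1, 1, 1, 1, 0, 0, 0, 0, 0]

/-- The digraph. -/
def G9 : Digraph (Fin 9) where
  Adj i j := adjM i j = 1

lemma outDeg_G9 (i : Fin 9) : outDeg G9 i = 4 := by
  have h : ∀ i : Fin 9, (univ.filter fun j => adjM i j = 1).card = 4 := by decide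
  have h1 := h i
  unfold outDeg
  convert h1
  exact Iff.rfl

lemma lap_G9 : lap G9 = (4 : ℂ) • (1 : Matrix (Fin 9) (Fin 9) ℂ) - adjM.map (Int.cast) := by
  have h : ∀ i j : Fin 9, adjM i j = 0 ∨ adjM i j = 1 := by decide
  ext i j
  unfold lap
  simp only [Matrix.sub_apply, of_apply, Matrix.smul_apply, Matrix.map_apply, outDeg_G9,
    smul_eq_mul]
  congr 1
  · by_cases hij : i = j
    · subst hij; simp
    · rw [diagonal_apply_ne _ hij, one_apply_ne hij, mul_zero]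
  · rcases h i j with h0 | h0
    · have : ¬ G9.Adj i j := fun h1 => by
        change adjM i j = 1 at h1
        omega
      rw [if_neg this, h0]; simp
    · have : G9.Adj i j := h0
      rw [if_pos this, h0]; simp

lemma lap_mulVec (x : Fin 9 → ℂ) : lap G9 *ᵥ x =
    ![4 * x 0 - (x 1 + x 2 + x 6 + x 7), 4 * x 1 - (x 0 + x 3 + x 4 + x 5),
      4 * x 2 - (x 1 + x 3 + x 6 + x 7), 4 * x 3 - (x 0 + x 2 + x 4 + x 5),
      4 * x 4 - (x 0 + x 2 + x 6 + x 8), 4 * x 5 - (x 0 + x 2 + x 7 + x 8),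
      4 * x 6 - (x 1 + x 3 + x 5 + x 8), 4 * x 7 - (x 1 + x 3 + x 4 + x 8),
      4 * x 8 - (x 0 + x 1 + x 2 + x 3)] := by
  rw [lap_G9, sub_mulVec, smul_mulVec, one_mulVec]
  funext i
  fin_cases i <;>
    simp [mulVec, dotProduct, Fin.sum_univ_succ, adjM] <;> ring

/-- The real part of the form. -/
def R (a : Fin 9 → ℝ) : ℝ :=
  a 0 * (4 * a 0 - (a 1 + a 2 + a 6 + a 7)) + a 1 * (4 * a 1 - (a 0 + a 3 + a 4 + a 5)) +
  a 2 * (4 * a 2 - (a 1 + a 3 + a 6 + a 7)) + a 3 * (4 * a 3 - (a 0 + a 2 + a 4 + a 5)) +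
  a 4 * (4 * a 4 - (a 0 + a 2 + a 6 + a 8)) + a 5 * (4 * a 5 - (a 0 + a 2 + a 7 + a 8)) +
  a 6 * (4 * a 6 - (a 1 + a 3 + a 5 + a 8)) + a 7 * (4 * a 7 - (a 1 + a 3 + a 4 + a 8)) +
  a 8 * (4 * a 8 - (a 0 + a 1 + a 2 + a 3))

/-- The imaginary part of the form, up to symmetrisation. -/
def B (a b : Fin 9 → ℝ) : ℝ :=
  a 0 * (4 * b 0 - (b 1 + b 2 + b 6 + b 7)) + a 1 * (4 * b 1 - (b 0 + b 3 + b 4 + b 5)) +
  a 2 * (4 * b 2 - (b 1 + b 3 + b 6 + b 7)) + a 3 * (4 * b 3 - (b 0 + b 2 + b 4 + b 5)) +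
  a 4 * (4 * b 4 - (b 0 + b 2 + b 6 + b 8)) + a 5 * (4 * b 5 - (b 0 + b 2 + b 7 + b 8)) +
  a 6 * (4 * b 6 - (b 1 + b 3 + b 5 + b 8)) + a 7 * (4 * b 7 - (b 1 + b 3 + b 4 + b 8)) +
  a 8 * (4 * b 8 - (b 0 + b 1 + b 2 + b 3))

/-- The sum of squares. -/
def N (a : Fin 9 → ℝ) : ℝ :=
  a 0 ^ 2 + a 1 ^ 2 + a 2 ^ 2 + a 3 ^ 2 + a 4 ^ 2 + a 5 ^ 2 + a 6 ^ 2 + a 7 ^ 2 + a 8 ^ 2

lemma N_eq (a : Fin 9 → ℝ) : ∑ i, a i ^ 2 = N a := by
  simp [Fin.sum_univ_succ, N]; ring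

lemma sum_eq {K : Type*} [AddCommMonoid K] (a : Fin 9 → K) :
    ∑ i, a i = a 0 + a 1 + a 2 + a 3 + a 4 + a 5 + a 6 + a 7 + a 8 := by
  simp [Fin.sum_univ_succ, add_assoc]

lemma form_re (x : Fin 9 → ℂ) : (star x ⬝ᵥ (lap G9 *ᵥ x)).re =
    R (fun i => (x i).re) + R (fun i => (x i).im) := by
  rw [lap_mulVec, dotProduct, sum_eq]
  simp [R]
  ring

lemma form_im (x : Fin 9 → ℂ) : (star x ⬝ᵥ (lap G9 *ᵥ x)).im =
    B (fun i => (x i).re) (fun i => (x i).im) - B (fun i => (x i).im) (fun i => (x i).re) := by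
  rw [lap_mulVec, dotProduct, sum_eq]
  simp [B]
  ring

lemma R_lower (a : Fin 9 → ℝ) (h : ∑ i, a i = 0) : 4 * N a ≤ R a := by
  rw [sum_eq] at h
  have h8 : a 8 = -(a 0 + a 1 + a 2 + a 3 + a 4 + a 5 + a 6 + a 7) := by linarith
  have e : R a - 4 * N a = (a 0 - a 1) ^ 2 / 2 + (a 2 - a 3) ^ 2 / 2 +
      ((a 4 + a 5) - (a 6 + a 7)) ^ 2 / 4 +
      ((a 0 + a 1 + a 2 + a 3 - a 4 - a 5 - a 6 - a 7 + a 8) ^ 2 + 8 * a 8 ^ 2) / 16 := by
    unfold R N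
    rw [h8]
    ring
  have : 0 ≤ R a - 4 * N a := by rw [e]; positivity
  linarith

lemma R_upper (a : Fin 9 → ℝ) (h : ∑ i, a i = 0) : R a ≤ 5 * N a := by
  rw [sum_eq] at h
  have h8 : a 8 = -(a 0 + a 1 + a 2 + a 3 + a 4 + a 5 + a 6 + a 7) := by linarith
  have e : 5 * N a - R a = (a 4 - a 5) ^ 2 / 2 + (a 6 - a 7) ^ 2 / 2 +
      ((a 0 + a 1) - (a 2 + a 3)) ^ 2 / 4 +
      ((a 0 + a 1 + a 2 + a 3 - a 4 - a 5 - a 6 - a 7 - a 8) ^ 2 + 8 * a 8 ^ 2) / 16 := by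
    unfold R N
    rw [h8]
    ring
  have : 0 ≤ 5 * N a - R a := by rw [e]; positivity
  linarith

lemma part1 (p1 p2 q1 q2 h1 h2 σ r : ℝ) (hr : r ^ 2 = 5) (hr0 : 0 < r) (hσ : σ ^ 2 = 1) :
    0 ≤ r / 2 * (p1 ^ 2 + p2 ^ 2 + q1 ^ 2 + q2 ^ 2) + r / 4 * (h1 ^ 2 + h2 ^ 2) -
      σ * ((p1 * q2 - p2 * q1) + (h1 * p2 - h2 * p1) + (h1 * q2 - h2 * q1)) := by
  have e : r * (r / 2 * (p1 ^ 2 + p2 ^ 2 + q1 ^ 2 + q2 ^ 2) + r / 4 * (h1 ^ 2 + h2 ^ 2) -
      σ * ((p1 * q2 - p2 * q1) + (h1 * p2 - h2 * p1) + (h1 * q2 - h2 * q1))) =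
      ((r * h1 - 2 * σ * (p2 + q2)) ^ 2 + (r * h2 + 2 * σ * (p1 + q1)) ^ 2) / 4 +
      ((3 * p1 - 2 * q1 - σ * r * q2) ^ 2 + (3 * p2 - 2 * q2 + σ * r * q1) ^ 2) / 6 := by
    linear_combination (1 / 2 * (p1 ^ 2 + p2 ^ 2 + q1 ^ 2 + q2 ^ 2) - σ ^ 2 * (q1 ^ 2 + q2 ^ 2) / 6) * hr -
      (((p2 + q2) ^ 2 + (p1 + q1) ^ 2) + 5 / 6 * (q1 ^ 2 + q2 ^ 2)) * hσ
  by_contra hcon
  push Not at hcon
  have := mul_neg_of_pos_of_neg hr0 hcon
  rw [e] at this
  have h3 : 0 ≤ ((r * h1 - 2 * σ * (p2 + q2)) ^ 2 + (r * h2 + 2 * σ * (p1 + q1)) ^ 2) / 4 +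
      ((3 * p1 - 2 * q1 - σ * r * q2) ^ 2 + (3 * p2 - 2 * q2 + σ * r * q1) ^ 2) / 6 := by
    positivity
  linarith

lemma part2 (u1 u2 v1 v2 k1 k2 σ : ℝ) (hσ : σ ^ 2 = 1) :
    0 ≤ (u1 ^ 2 + u2 ^ 2 + v1 ^ 2 + v2 ^ 2) / 2 + (k1 ^ 2 + k2 ^ 2) / 4 -
      σ * (u1 * v2 - u2 * v1) := by
  have e : (u1 ^ 2 + u2 ^ 2 + v1 ^ 2 + v2 ^ 2) / 2 + (k1 ^ 2 + k2 ^ 2) / 4 -
      σ * (u1 * v2 - u2 * v1) = ((u1 - σ * v2) ^ 2 + (u2 + σ * v1) ^ 2) / 2 +
        (k1 ^ 2 + k2 ^ 2) / 4 := by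
    linear_combination (-(v1 ^ 2 + v2 ^ 2) / 2) * hσ
  rw [e]
  positivity

lemma part3 (t1 t2 s1 s2 σ r : ℝ) (hr : r ^ 2 = 5) (hr0 : 0 < r) (hσ : σ = 1 ∨ σ = -1) :
    0 ≤ (1 + r) / 16 * (t1 ^ 2 + t2 ^ 2) + 9 * (1 + r) / 16 * (s1 ^ 2 + s2 ^ 2) +
      (r - 1) / 8 * (t1 * s1 + t2 * s2) - σ * (s1 * t2 - s2 * t1) := by
  have hr1 : 11 / 5 < r := by nlinarith
  have hr2 : r < 9 / 4 := by nlinarith
  have h1 : 0 ≤ (r - 11 / 5) * (t1 ^ 2 + t2 ^ 2) := by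
    apply mul_nonneg <;> [linarith; positivity]
  have h2 : 0 ≤ (r - 11 / 5) * (s1 ^ 2 + s2 ^ 2) := by
    apply mul_nonneg <;> [linarith; positivity]
  have h3 : |(r - 1) * (t1 * s1 + t2 * s2)| ≤ 5 / 4 * ((t1 ^ 2 + t2 ^ 2) / 6 +
      3 / 2 * (s1 ^ 2 + s2 ^ 2)) := by
    rw [abs_mul, abs_of_pos (by linarith)]
    have h4 : |t1 * s1 + t2 * s2| ≤ (t1 ^ 2 + t2 ^ 2) / 6 + 3 / 2 * (s1 ^ 2 + s2 ^ 2) := by
      rw [abs_le]
      constructor <;> nlinarith [sq_nonneg (t1 - 3 * s1), sq_nonneg (t2 - 3 * s2),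
        sq_nonneg (t1 + 3 * s1), sq_nonneg (t2 + 3 * s2)]
    exact mul_le_mul (by linarith) h4 (abs_nonneg _) (by norm_num)
  have h5 := (abs_le.1 h3).1
  rcases hσ with rfl | rfl <;>
    nlinarith [sq_nonneg (t1 - 3 * s2), sq_nonneg (t2 + 3 * s1), sq_nonneg (t1 + 3 * s2),
      sq_nonneg (t2 - 3 * s1), sq_nonneg t1, sq_nonneg t2, sq_nonneg s1, sq_nonneg s2]

lemma key (a b : Fin 9 → ℝ) (ha : ∑ i, a i = 0) (hb : ∑ i, b i = 0) (σ r : ℝ) (hr : r ^ 2 = 5)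
    (hr0 : 0 < r) (hσ : σ = 1 ∨ σ = -1) :
    0 ≤ (N a + N b) + (r - 1) * (R a + R b - 4 * (N a + N b)) + σ * (B a b - B b a) := by
  have hσ2 : σ ^ 2 = 1 := by rcases hσ with rfl | rfl <;> norm_num
  rw [sum_eq] at ha hb
  have ha8 : a 8 = -(a 0 + a 1 + a 2 + a 3 + a 4 + a 5 + a 6 + a 7) := by linarith
  have hb8 : b 8 = -(b 0 + b 1 + b 2 + b 3 + b 4 + b 5 + b 6 + b 7) := by linarith
  have e1 := part1 (a 0 - a 1) (b 0 - b 1) (a 2 - a 3) (b 2 - b 3)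
    (a 4 + a 5 - a 6 - a 7) (b 4 + b 5 - b 6 - b 7) σ r hr hr0 hσ2
  have e2 := part2 (a 4 - a 5) (b 4 - b 5) (a 6 - a 7) (b 6 - b 7)
    (a 0 + a 1 - a 2 - a 3) (b 0 + b 1 - b 2 - b 3) σ hσ2
  have e3 := part3 (a 0 + a 1 + a 2 + a 3 - a 4 - a 5 - a 6 - a 7)
    (b 0 + b 1 + b 2 + b 3 - b 4 - b 5 - b 6 - b 7) (a 8) (b 8) σ r hr hr0 hσ
  have e := add_nonneg (add_nonneg e1 e2) e3
  refine le_of_le_of_eq e ?_
  unfold R N B
  rw [ha8, hb8]
  ring

/-- The region. -/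
def T : Set ℂ := {z | 4 ≤ z.re ∧ z.re ≤ 5 ∧ |z.im| ≤ 1 + (√5 - 1) * (z.re - 4)}

lemma sqrt5_sq : (√5 : ℝ) ^ 2 = 5 := Real.sq_sqrt (by norm_num)

lemma sqrt5_pos : (0 : ℝ) < √5 := Real.sqrt_pos.2 (by norm_num)

lemma N_re_im (x : Fin 9 → ℂ) : ∑ i, ‖x i‖ ^ 2 = N (fun i => (x i).re) + N (fun i => (x i).im) := by
  rw [← N_eq, ← N_eq, ← sum_add_distrib]
  refine sum_congr rfl fun i _ => ?_
  rw [← Complex.normSq_eq_norm_sq, Complex.normSq_apply]
  ring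

lemma numRange_subset : numRange G9 ⊆ T := by
  rintro z ⟨x, hx, hn, rfl⟩
  have hre : ∑ i, (x i).re = 0 := by
    have := congrArg Complex.re hx
    simpa using this
  have him : ∑ i, (x i).im = 0 := by
    have := congrArg Complex.im hx
    simpa using this
  rw [N_re_im] at hn
  have l1 := R_lower _ hre
  have l2 := R_lower _ him
  have u1 := R_upper _ hre
  have u2 := R_upper _ him
  have k1 := key _ _ hre him 1 (√5) sqrt5_sq sqrt5_pos (Or.inl rfl)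
  have k2 := key _ _ hre him (-1) (√5) sqrt5_sq sqrt5_pos (Or.inr rfl)
  have e1 := form_re x
  have e2 := form_im x
  rw [← e2, ← e1, hn] at k1 k2
  refine ⟨?_, ?_, ?_⟩
  · rw [e1]; linarith
  · rw [e1]; linarith
  · rw [abs_le]
    constructor <;> linarith

lemma subset_numRange : T ⊆ numRange G9 := by
  rintro z ⟨h1, h2, h3⟩
  set X := z.re with hX
  set Y := z.im with hY
  set r := √5 with hr
  have hr2 : r ^ 2 = 5 := sqrt5_sq
  have hrpos : 0 < r := sqrt5_pos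
  have hr1 : 1 < r := by nlinarith
  set H := 1 + (r - 1) * (X - 4) with hH
  have hHpos : 0 < H := by
    have : 0 ≤ (r - 1) * (X - 4) := mul_nonneg (by linarith) (by linarith)
    linarith
  set ρ := Y / H with hρ
  have hρY : ρ * H = Y := by rw [hρ]; field_simp
  have hρ1 : |ρ| ≤ 1 := by
    rw [hρ, abs_div, abs_of_pos hHpos, div_le_one hHpos]
    exact h3
  obtain ⟨hρ2, hρ3⟩ := abs_le.1 hρ1
  obtain ⟨c, s, hcs, hcs2⟩ : ∃ c s : ℝ, c ^ 2 + s ^ 2 = 1 ∧ 2 * c * s = ρ := by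
    have a1 := Real.sq_sqrt (show 0 ≤ 1 + ρ by linarith)
    have a2 := Real.sq_sqrt (show 0 ≤ 1 - ρ by linarith)
    refine ⟨(√(1 + ρ) + √(1 - ρ)) / 2, (√(1 + ρ) - √(1 - ρ)) / 2, ?_, ?_⟩
    · linear_combination (a1 + a2) / 2
    · linear_combination (a1 - a2) / 2
  obtain ⟨A, hA⟩ : ∃ A : ℝ, A ^ 2 = X - 4 := ⟨√(X - 4), Real.sq_sqrt (by linarith)⟩
  obtain ⟨D, hD⟩ : ∃ D : ℝ, D ^ 2 = 5 - X := ⟨√(5 - X), Real.sq_sqrt (by linarith)⟩
  obtain ⟨w, hw⟩ : ∃ w : ℝ, w ^ 2 = 1 / 2 := ⟨√(1 / 2), Real.sq_sqrt (by norm_num)⟩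
  let x : Fin 9 → ℂ := ![⟨A * c / 2, A * s * r / 10⟩, ⟨-(A * c / 2), -(A * s * r / 10)⟩,
    ⟨A * c / 2, -(A * s * r / 10)⟩, ⟨-(A * c / 2), A * s * r / 10⟩,
    ⟨D * c * w, A * s * r / 5⟩, ⟨-(D * c * w), A * s * r / 5⟩,
    ⟨0, -(A * s * r / 5) - D * s * w⟩, ⟨0, -(A * s * r / 5) + D * s * w⟩, ⟨0, 0⟩]
  refine ⟨x, ?_, ?_, ?_⟩
  · rw [sum_eq]
    apply Complex.ext
    · simp [x]
    · simp [x]; ring
  · rw [N_re_im]
    simp only [N, x]
    simp
    have e : A ^ 2 + D ^ 2 = 1 := by linarith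
    linear_combination (A ^ 2 * s ^ 2 / 5) * hr2 + (2 * D ^ 2 * (c ^ 2 + s ^ 2)) * hw +
      (A ^ 2 + D ^ 2) * hcs + e
  · apply Complex.ext
    · rw [form_re]
      change X = _
      simp only [R, x]
      simp
      linear_combination (-5) * hA + (-4) * hD - A ^ 2 * s ^ 2 * hr2 -
        (5 * A ^ 2 + 4 * D ^ 2) * hcs - 8 * D ^ 2 * (c ^ 2 + s ^ 2) * hw
    · rw [form_im]
      change Y = _
      simp only [B, x]
      simp
      linear_combination (-1) * hρY + (-H) * hcs2 + 2 * c * s * hH - 2 * c * s * (r - 1) * hA -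
        2 * c * s * (hA + hD) - 4 * c * s * D ^ 2 * hw

lemma numRange_eq : numRange G9 = T := Set.Subset.antisymm numRange_subset subset_numRange

lemma convex_T : Convex ℝ T := by
  intro z hz w hw a b ha hb hab
  obtain ⟨z1, z2, z3⟩ := hz
  obtain ⟨w1, w2, w3⟩ := hw
  obtain ⟨z4, z5⟩ := abs_le.1 z3
  obtain ⟨w4, w5⟩ := abs_le.1 w3
  have hre : (a • z + b • w).re = a * z.re + b * w.re := by simp
  have him : (a • z + b • w).im = a * z.im + b * w.im := by simp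
  have hb' : b = 1 - a := by linarith
  have m1 := mul_le_mul_of_nonneg_left z4 ha
  have m2 := mul_le_mul_of_nonneg_left w4 hb
  have m3 := mul_le_mul_of_nonneg_left z5 ha
  have m4 := mul_le_mul_of_nonneg_left w5 hb
  refine ⟨?_, ?_, ?_⟩
  · rw [hre]; nlinarith
  · rw [hre]; nlinarith
  · rw [hre, him, abs_le]
    subst hb'
    constructor
    · linarith
    · linarith

/-- The four corners. -/
noncomputable def V : Fin 4 → ℂ := ![⟨4, 1⟩, ⟨4, -1⟩, ⟨5, √5⟩, ⟨5, -√5⟩]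

lemma T_subset (S : Set ℂ) (hS : ∀ k, V k ∈ S) : T ⊆ convexHull ℝ S := by
  rintro z ⟨h1, h2, h3⟩
  set X := z.re with hX
  set Y := z.im with hY
  set r := √5 with hr
  have hr2 : r ^ 2 = 5 := sqrt5_sq
  have hrpos : 0 < r := sqrt5_pos
  have hr1 : 1 < r := by nlinarith
  set H := 1 + (r - 1) * (X - 4) with hH
  have hHpos : 0 < H := by
    have : 0 ≤ (r - 1) * (X - 4) := mul_nonneg (by linarith) (by linarith)
    linarith
  set ρ := Y / H with hρ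
  have hρY : ρ * H = Y := by rw [hρ]; field_simp
  have hρ1 : |ρ| ≤ 1 := by
    rw [hρ, abs_div, abs_of_pos hHpos, div_le_one hHpos]
    exact h3
  obtain ⟨hρ2, hρ3⟩ := abs_le.1 hρ1
  refine mem_convexHull_of_exists_fintype
    ![(5 - X) * (1 + ρ) / 2, (5 - X) * (1 - ρ) / 2, (X - 4) * (1 + ρ) / 2,
      (X - 4) * (1 - ρ) / 2] V ?_ ?_ hS ?_
  · intro i
    have a1 : 0 ≤ 5 - X := by linarith
    have a2 : 0 ≤ X - 4 := by linarith
    have a3 : 0 ≤ 1 + ρ := by linarith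
    have a4 : 0 ≤ 1 - ρ := by linarith
    fin_cases i
    · change 0 ≤ (5 - X) * (1 + ρ) / 2
      positivity
    · change 0 ≤ (5 - X) * (1 - ρ) / 2
      positivity
    · change 0 ≤ (X - 4) * (1 + ρ) / 2
      positivity
    · change 0 ≤ (X - 4) * (1 - ρ) / 2
      positivity
  · rw [Fin.sum_univ_four]
    simp
    ring
  · rw [Fin.sum_univ_four]
    apply Complex.ext
    · change _ = X
      simp [V]
      ring
    · change _ = Y
      simp [V]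
      rw [← hr]
      linear_combination hρY - ρ * hH

/-- The four eigenvectors. -/
lemma corners (Q : Matrix (Fin 9) (Fin (9 - 1)) ℂ) (hQ : IsRestrictor Q) (k : Fin 4) :
    V k ∈ eigenvalues (Qᴴ * lap G9 * Q) := by
  have alphaCase : ∀ σ : ℝ, σ ^ 2 = 1 → (⟨4, σ⟩ : ℂ) ∈ eigenvalues (Qᴴ * lap G9 * Q) := by
    intro σ hσ
    refine mem_eigenvalues G9 Q hQ
      ![0, 0, 0, 0, 1, -1, ⟨0, -σ⟩, ⟨0, σ⟩, 0] ?_ ?_ _ ?_
    · intro h
      have := congrFun h 4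
      simp at this
    · rw [sum_eq]
      apply Complex.ext <;> simp
    · rw [lap_mulVec]
      funext i
      fin_cases i <;> apply Complex.ext <;> simp <;> nlinarith
  have betaCase : ∀ σ : ℝ, σ ^ 2 = 1 → (⟨5, σ * √5⟩ : ℂ) ∈ eigenvalues (Qᴴ * lap G9 * Q) := by
    intro σ hσ
    have h5 := sqrt5_sq
    have m1 : σ * √5 * √5 = 5 * σ := by linear_combination σ * h5
    have m2 : σ * √5 * σ = √5 := by linear_combination √5 * hσ
    have m3 : σ * √5 * (2 * σ) = 2 * √5 := by linear_combination 2 * √5 * hσ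
    refine mem_eigenvalues G9 Q hQ
      ![⟨√5, σ⟩, ⟨-√5, -σ⟩, ⟨√5, -σ⟩, ⟨-√5, σ⟩, ⟨0, 2 * σ⟩, ⟨0, 2 * σ⟩, ⟨0, -2 * σ⟩,
        ⟨0, -2 * σ⟩, 0] ?_ ?_ _ ?_
    · intro h
      have := congrArg Complex.re (congrFun h 0)
      simp at this
    · rw [sum_eq]
      apply Complex.ext <;> simp
    · rw [lap_mulVec]
      funext i
      fin_cases i <;> apply Complex.ext <;> simp <;> linarith
  fin_cases k
  · exact alphaCase 1 (by norm_num)
  · exact alphaCase (-1) (by norm_num)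
  · have := betaCase 1 (by norm_num)
    rw [one_mul] at this
    exact this
  · have := betaCase (-1) (by norm_num)
    rw [neg_one_mul] at this
    exact this

/-- The Helmert matrix. -/
def C : Matrix (Fin 9) (Fin (9 - 1)) ℤ :=
  Matrix.of fun i k => if i.val ≤ k.val then 1 else if i.val = k.val + 1 then -(k.val + 1) else 0

lemma exists_restrictor : ∃ Q : Matrix (Fin 9) (Fin (9 - 1)) ℂ, IsRestrictor Q := by
  have hC : Cᵀ * C = Matrix.diagonal fun k => (k.val + 1 : ℤ) * (k.val + 2) := by decide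
  have hC0 : ∀ k, ∑ i, C i k = 0 := by decide
  let D : Fin (9 - 1) → ℝ := fun k => (√((k.val + 1) * (k.val + 2)))⁻¹
  refine ⟨Matrix.of fun i k => ((C i k : ℤ) : ℂ) * ((D k : ℝ) : ℂ), ?_, ?_⟩
  · ext k l
    have h1 := congrFun (congrFun hC k) l
    rw [mul_apply] at h1
    simp only [transpose_apply] at h1
    rw [mul_apply]
    have h2 : ∀ i, (Matrix.of fun i k => ((C i k : ℤ) : ℂ) * ((D k : ℝ) : ℂ))ᴴ k i *
        (Matrix.of fun i k => ((C i k : ℤ) : ℂ) * ((D k : ℝ) : ℂ)) i l =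
        ((D k * D l : ℝ) : ℂ) * ((C i k * C i l : ℤ) : ℂ) := by
      intro i
      simp only [conjTranspose_apply, of_apply, star_mul', RCLike.star_def, Complex.conj_ofReal]
      have : (starRingEnd ℂ) ((C i k : ℤ) : ℂ) = ((C i k : ℤ) : ℂ) := by simp
      rw [this]
      push_cast
      ring
    rw [sum_congr rfl fun i _ => h2 i, ← mul_sum, ← Int.cast_sum, h1]
    by_cases hkl : k = l
    · subst hkl
      rw [diagonal_apply_eq, one_apply_eq]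
      have hpos : (0 : ℝ) < (k.val + 1) * (k.val + 2) := by positivity
      have h3 : D k * D k * (((k.val + 1) * (k.val + 2) : ℝ)) = 1 := by
        simp only [D]
        rw [← mul_inv, Real.mul_self_sqrt hpos.le, inv_mul_cancel₀ hpos.ne']
      have h4 := congrArg (fun t : ℝ => (t : ℂ)) h3
      push_cast at h4 ⊢
      exact h4
    · rw [diagonal_apply_ne _ hkl, one_apply_ne hkl]
      simp
  · intro k
    simp only [of_apply]
    rw [← sum_mul, ← Int.cast_sum, hC0 k]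
    simp

lemma polygonal : IsPolygonal G9 := by
  refine ⟨exists_restrictor, fun Q hQ => ?_⟩
  rw [numRange_eq]
  refine Set.Subset.antisymm (T_subset _ (corners Q hQ)) (convexHull_min ?_ convex_T)
  rw [← numRange_eq]
  exact eigenvalues_subset G9 Q hQ

lemma real_form (x : Fin 9 → ℝ) :
    (fun i => (x i : ℂ)) ⬝ᵥ (lap G9 *ᵥ fun i => (x i : ℂ)) = ((R x : ℝ) : ℂ) := by
  rw [lap_mulVec, dotProduct, sum_eq]
  simp [R]

lemma isLeast : IsLeast (values G9) 4 := by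
  constructor
  · refine ⟨![0, 0, 0, 0, √(1 / 2), -√(1 / 2), 0, 0, 0], ?_, ?_, ?_⟩
    · rw [sum_eq]; simp
    · have h := Real.sq_sqrt (show (0 : ℝ) ≤ 1 / 2 by norm_num)
      rw [N_eq]
      simp only [N]
      simp only [Matrix.cons_val]
      linear_combination 2 * h
    · rw [real_form]
      have h := Real.sq_sqrt (show (0 : ℝ) ≤ 1 / 2 by norm_num)
      congr 1
      simp only [R]
      simp only [Matrix.cons_val]
      linear_combination (-8) * h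
  · rintro t ⟨x, hx, hn, ht⟩
    rw [real_form] at ht
    have h1 : t = R x := by exact_mod_cast ht
    rw [N_eq] at hn
    have := R_lower x hx
    rw [h1]; linarith

lemma isGreatest : IsGreatest (values G9) 5 := by
  constructor
  · refine ⟨![√(1 / 2), -√(1 / 2), 0, 0, 0, 0, 0, 0, 0], ?_, ?_, ?_⟩
    · rw [sum_eq]; simp
    · have h := Real.sq_sqrt (show (0 : ℝ) ≤ 1 / 2 by norm_num)
      rw [N_eq]
      simp only [N]
      simp only [Matrix.cons_val]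
      linear_combination 2 * h
    · rw [real_form]
      have h := Real.sq_sqrt (show (0 : ℝ) ≤ 1 / 2 by norm_num)
      congr 1
      simp only [R]
      simp only [Matrix.cons_val]
      linear_combination (-10) * h
  · rintro t ⟨x, hx, hn, ht⟩
    rw [real_form] at ht
    have h1 : t = R x := by exact_mod_cast ht
    rw [N_eq] at hn
    have := R_upper x hx
    rw [h1]; linarith

lemma inDeg_G9 : inDeg G9 0 = 5 := by
  have h1 : (univ.filter fun j => adjM j 0 = 1).card = 5 := by decide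
  unfold inDeg
  convert h1
  exact Iff.rfl

end nine

/-- There is a digraph of order `9` without loops which is polygonal and has Laplacian spread `1`
(with `α = 4` and `β = 5`).  So a polygonal digraph with spread `1` can have odd order; this one
is not even balanced. -/
theorem result : ∃ G : Digraph (Fin 9), (∀ i, ¬ G.Adj i i) ∧ IsPolygonal G ∧
    sp G = 1 ∧ IsLeast (values G) 4 ∧ IsGreatest (values G) 5 ∧
    ∃ i, outDeg G i ≠ inDeg G i := by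
  refine ⟨G9, ?_, polygonal, ?_, isLeast, isGreatest, 0, ?_⟩
  · intro i hi
    have h : ∀ i : Fin 9, adjM i i ≠ 1 := by decide
    exact h i hi
  · unfold sp alpha beta
    rw [isLeast.csInf_eq, isGreatest.csSup_eq]
    norm_num
  · rw [outDeg_G9, inDeg_G9]
    norm_num

end Pool.Agent.Results.MP_8a2148_co.OrderNine
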